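import Pool.Agent.Helper52.NF.St

set_option autoImplicit false

/-!
Module CON of project NF (MP_dd34a0_co): contraction of a star.
-/

namespace Pool.Agent.Helper36.NF

open Pool.Agent.Helper52.NF Finset

section

variable {ε N : Type} [DecidableEq ε] [DecidableEq N] [Fintype N]

omit [DecidableEq ε] in
theorem push_pt (ρ : N → N) (a v : N) :
    ∑ u ∈ Finset.univ.filter (fun u => ρ u = v), pt a u = pt (ρ a) v := by
  unfold pt
  rw [Finset.sum_ite_eq' (Finset.univ.filter (fun u => ρ u = v)) a (fun _ => (1 : ZMod 2))]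
  simp only [Finset.mem_filter, Finset.mem_univ, true_and]
  by_cases h : ρ a = v
  · rw [if_pos h, if_pos h.symm]
  · rw [if_neg h, if_neg (Ne.symm h)]

omit [DecidableEq ε] in
theorem push_bd (α β : ε → N) (ρ : N → N) (A : Finset ε) (v : N) :
    bd (fun e => ρ (α e)) (fun e => ρ (β e)) A v =
      ∑ u ∈ Finset.univ.filter (fun u => ρ u = v), bd α β A u := by
  unfold bd
  rw [Finset.sum_comm]
  refine Finset.sum_congr rfl fun e _ => ?_
  rw [Finset.sum_add_distrib, push_pt, push_pt]

end

theorem hCON : StCON := by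
  intro ε N _ _ _ α β E J x e₀ _ hC he₀ hAt huni hmin
  classical
  have hx : ∀ v, v = x ∨ Nb α β E x v → rho α β E x v = x := by
    intro v hv
    unfold rho
    rw [if_pos hv]
  have hnx : ∀ v, ¬ (v = x ∨ Nb α β E x v) → rho α β E x v = v := by
    intro v hv
    unfold rho
    rw [if_neg hv]
  have hoff : ∀ e, e ∈ offx α β E x ↔ e ∈ E ∧ ¬ At α β x e := by
    intro e
    unfold offx
    rw [Finset.mem_filter]
  refine ⟨⟨?_, ?_⟩, ?_⟩
  · intro e he
    rw [Finset.mem_erase] at he
    rw [hoff]
    exact ⟨hC.1 he.2, fun h => he.1 (huni e he.2 h)⟩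
  · intro C hCo hbd
    have h1 : ∀ e ∈ C, ¬ At α β x e := fun e he => ((hoff e).1 (hCo he)).2
    have h2 : C ⊆ E := fun e he => ((hoff e).1 (hCo he)).1
    have h3 : ∀ z, bd α β C z ≠ 0 → Nb α β E x z := by
      intro z hz
      by_contra hn
      by_cases hzx : z = x
      · rw [hzx] at hz
        exact hz (bd_of_notAt α β h1)
      · have h4 := hbd z
        rw [push_bd] at h4
        have h5 : Finset.univ.filter (fun u => rho α β E x u = z) = {z} := by
          ext u
          simp only [Finset.mem_filter, Finset.mem_univ, true_and, Finset.mem_singleton]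
          constructor
          · intro hu
            by_cases h6 : u = x ∨ Nb α β E x u
            · rw [hx u h6] at hu
              exact absurd hu.symm hzx
            · rw [hnx u h6] at hu
              exact hu
          · intro hu
            rw [hu]
            exact hnx z (by
              rintro (h | h)
              · exact hzx h
              · exact hn h)
        rw [h5, Finset.sum_singleton] at h4
        exact hz h4
    have h4 := hmin C h2 h1 h3
    have h5 : C ∩ J.erase e₀ = C ∩ J := by
      ext e
      simp only [Finset.mem_inter, Finset.mem_erase]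
      constructor
      · rintro ⟨a, -, b⟩
        exact ⟨a, b⟩
      · rintro ⟨a, b⟩
        refine ⟨a, ?_, b⟩
        rintro rfl
        exact h1 _ a hAt
    unfold wt at h4 ⊢
    rw [h5]
    exact h4
  · intro v
    rw [push_bd]
    have h1 : ∀ u, bd α β (J.erase e₀) u = bd α β J u + (pt (α e₀) u + pt (β e₀) u) := fun u =>
      bd_erase α β he₀ u
    rw [Finset.sum_congr rfl (fun u _ => h1 u), Finset.sum_add_distrib, Finset.sum_add_distrib,
      push_pt, push_pt]
    have he₀E := hC.1 he₀
    have h2 : rho α β E x (α e₀) = x ∧ rho α β E x (β e₀) = x := by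
      rcases hAt with h | h
      · exact ⟨hx _ (Or.inl h), hx _ (Or.inr ⟨e₀, he₀E, Or.inl ⟨h, rfl⟩⟩)⟩
      · exact ⟨hx _ (Or.inr ⟨e₀, he₀E, Or.inr ⟨rfl, h⟩⟩), hx _ (Or.inl h)⟩
    rw [h2.1, h2.2, zz, add_zero]

end Pool.Agent.Helper36.NF
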