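import Pool.Agent.Helper52.NF.St3

set_option autoImplicit false

/-!
Module CONN of project NF (MP_dd34a0_co): the vertex-face graph is connected.
-/

namespace Pool.Agent.Helper36.NF

open Pool.Agent.Helper52.NF Finset

theorem conn_aux {V : Type} [Fintype V] (G : SimpleGraph V) (rot φ : Equiv.Perm G.Dart)
    (h : PlaneH V G rot φ) [DecidableEq G.Dart] [DecidableEq (Fc φ ⊕ V)] (a b : Fc φ ⊕ V) :
    ∃ P : Finset G.Dart, ∀ x, bd (ea φ) (eb φ) P x = pt a x + pt b x := by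
  obtain ⟨h1, h2, -, h4, -⟩ := h
  let R : Fc φ ⊕ V → Fc φ ⊕ V → Prop := fun a b =>
    ∃ P : Finset G.Dart, ∀ x, bd (ea φ) (eb φ) P x = pt a x + pt b x
  have hrefl : ∀ a, R a a := fun a => ⟨∅, fun x => by rw [bd_empty, zz]⟩
  have hsymm : ∀ a b, R a b → R b a := by
    rintro a b ⟨P, hP⟩
    exact ⟨P, fun x => by rw [hP, add_comm]⟩
  have htrans : ∀ a b c, R a b → R b c → R a c := by
    rintro a b c ⟨P, hP⟩ ⟨Q, hQ⟩
    refine ⟨symmDiff P Q, fun x => ?_⟩
    rw [bd_symmDiff, hP, hQ]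
    have := zz (pt b x)
    linear_combination this
  have hedge : ∀ d : G.Dart, R (Sum.inl (fc φ d)) (Sum.inr d.fst) := by
    intro d
    refine ⟨{d}, fun x => ?_⟩
    rw [bd_singleton]
    rfl
  have hfc : ∀ d : G.Dart, fc φ (φ d) = fc φ d := by
    intro d
    refine Quotient.sound ?_
    change φ.SameCycle (φ d) d
    rw [Equiv.Perm.sameCycle_apply_left]
  have hsnd : ∀ d : G.Dart, (φ d).fst = d.snd := by
    intro d
    rw [h4, h2]
    rfl
  have hadj : ∀ d : G.Dart, R (Sum.inr d.fst) (Sum.inr d.snd) := by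
    intro d
    have e1 := hedge (φ d)
    rw [hfc, hsnd] at e1
    exact htrans _ _ _ (hsymm _ _ (hedge d)) e1
  have hV : ∀ u v : V, R (Sum.inr u) (Sum.inr v) := by
    intro u v
    obtain ⟨p⟩ := h1.preconnected u v
    induction p with
    | nil => exact hrefl _
    | @cons u v w huv p ih =>
      exact htrans _ _ _ (hadj ⟨(u, v), huv⟩) ih
  have hall : ∀ a : Fc φ ⊕ V, ∃ v : V, R a (Sum.inr v) := by
    rintro (f | v)
    · obtain ⟨d, rfl⟩ := Quotient.exists_rep f
      exact ⟨d.fst, hedge d⟩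
    · exact ⟨v, hrefl _⟩
  obtain ⟨u, hu⟩ := hall a
  obtain ⟨v, hv⟩ := hall b
  exact htrans _ _ _ hu (htrans _ _ _ (hV u v) (hsymm _ _ hv))

theorem hCONN : StCONN := by
  intro V _ G rot φ h a b
  classical
  obtain ⟨P, hP⟩ := conn_aux G rot φ h a b
  exact ⟨P, Finset.subset_univ _, hP⟩

end Pool.Agent.Helper36.NF
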